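import Pool.Agent.N435.Irr

/-!
# Poonen's strict inequality for families generated by few sets and many disjoint sets

Let `A` be a finite union-closed family, `Z` a set of `r` union-irreducible members such that the
other union-irreducible members are pairwise disjoint, and let `s` be the number of those of them
which meet a member of `Z`. (The ones which do not meet a member of `Z` only contribute a direct
factor; in the separating case this factor is a power set.) If `s > 20 r (⌈log₂ r⌉ + 2)²`, some
element lies in strictly more than half of the members.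

The proof uses the theorem behind `MP_9bc572_co.DisjointGenerators`: if no element lies in more than
half of the members, then some `p` among the `s` disjoint sets is met partially by no irreducible
member, and as the elements of `p` lie in exactly half of the members, `p` can be removed from every
member containing it. So the members of `Z` containing `p` are not irreducible.
-/

set_option autoImplicit false

namespace Pool.Agent.Results.MP_75f39d_co.DisjointGenerators

open Finset

open scoped Classical in
/-- The union-irreducible members of `A`: the nonempty members which are not the union of two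
members different from them. -/
noncomputable def irr {α : Type*} [DecidableEq α] (A : Finset (Finset α)) : Finset (Finset α) :=
  A.filter (fun q => q.Nonempty ∧ ∀ X ∈ A, ∀ Y ∈ A, X ∪ Y = q → X = q ∨ Y = q)

/-- Let `A` be a finite union-closed family and `Z` a set of union-irreducible members of `A` such
that the other irreducible members are pairwise disjoint. Let `P` be a set of irreducible members
outside `Z` each of which meets a member of `Z`. If `|P| > 20 r (⌈log₂ r⌉ + 2)²`, where `r = |Z|`, then
some element of a set in `P` lies in strictly more than half of the members of `A`. -/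
theorem result {α : Type*} [DecidableEq α] (A Z P : Finset (Finset α))
    (hunion : ∀ X ∈ A, ∀ Y ∈ A, X ∪ Y ∈ A) (hZ : Z ⊆ irr A)
    (hdisj : ∀ p ∈ irr A, ∀ q ∈ irr A, p ∉ Z → q ∉ Z → p ≠ q → Disjoint p q)
    (hP : ∀ p ∈ P, p ∈ irr A ∧ p ∉ Z ∧ ∃ z ∈ Z, ¬ Disjoint p z)
    (hcard : 20 * Z.card * (Nat.clog 2 Z.card + 2) ^ 2 < P.card) :
    ∃ p ∈ P, ∃ x ∈ p, A.card < 2 * (A.filter (fun S => x ∈ S)).card := by
  classical
  by_contra hcon
  push Not at hcon
  have hirrA : irr A ⊆ A := by
    unfold irr
    exact filter_subset _ _
  have hne : ∀ p ∈ irr A, p.Nonempty := by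
    intro p hp
    unfold irr at hp
    rw [mem_filter] at hp
    exact hp.2.1
  have hPirr : P ⊆ irr A := fun p hp => (hP p hp).1
  have hH : ∀ p ∈ P, ∀ y ∈ p,
      2 * ((insert ∅ A).filter (fun S => y ∈ S)).card ≤ (insert ∅ A).card := by
    intro p hp y hy
    rw [Pool.Agent.N435.filter_insert_empty]
    exact (hcon p hp y hy).trans (card_le_card (subset_insert _ _))
  have hsys : Pool.Agent.N435.Sys (insert ∅ A) (irr A) P := by
    refine ⟨Pool.Agent.N435.union_insert hunion, hirrA.trans (subset_insert _ _), ?_, hPirr,
      ?_, fun p hp => hne p (hPirr hp)⟩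
    · intro S hS x hx
      rcases mem_insert.1 hS with rfl | hS
      · exact absurd hx (notMem_empty x)
      · obtain ⟨q, hq, hq', hxq, hqS⟩ := Pool.Agent.N435.irr_gen A S hS x hx
        exact ⟨q, by unfold irr; rw [mem_filter]; exact ⟨hq, hq'⟩, hxq, hqS⟩
    · intro p hp q hq hpq
      exact hdisj p (hPirr hp) q (hPirr hq) (hP p hp).2.1 (hP q hq).2.1 hpq
  have hhubs : Pool.Agent.N435.hubs (irr A) P ⊆ Z := by
    intro k hk
    simp only [Pool.Agent.N435.hubs, Pool.Agent.N435.Mt, mem_filter] at hk
    obtain ⟨hk, p, hp, hk1, hk2⟩ := hk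
    by_contra hkZ
    apply hk1
    apply hdisj p (hPirr hp) k hk (hP p hp).2.1 hkZ
    rintro rfl
    exact hk2 Subset.rfl
  have hc := card_le_card hhubs
  obtain ⟨p, hp, hu⟩ := Pool.Agent.N435.exists_untouched hsys hH
    (2 * (Nat.clog 2 Z.card + 2)) (by omega) (by
      have h1 : Z.card ≤ 2 ^ Nat.clog 2 Z.card := Nat.le_pow_clog (by norm_num) _
      calc 16 * (Pool.Agent.N435.hubs (irr A) P).card ^ 2
          ≤ 16 * (2 ^ Nat.clog 2 Z.card) ^ 2 := by
            have := hc.trans h1
            gcongr
        _ = 2 ^ (2 * (Nat.clog 2 Z.card + 2)) := by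
            rw [mul_add, pow_add, pow_mul']
            ring) (by
      refine lt_of_le_of_lt ?_ hcard
      calc 5 * (2 * (Nat.clog 2 Z.card + 2)) ^ 2 * (Pool.Agent.N435.hubs (irr A) P).card
          ≤ 5 * (2 * (Nat.clog 2 Z.card + 2)) ^ 2 * Z.card := Nat.mul_le_mul_left _ hc
        _ = 20 * Z.card * (Nat.clog 2 Z.card + 2) ^ 2 := by ring)
  obtain ⟨hpi, hpZ, z, hz, hpz⟩ := hP p hp
  obtain ⟨y, hy⟩ := hne p hpi
  have hrem := (Pool.Agent.N435.untouched hsys hp hu hy).2 (hH p hp y hy)
  have hpz' : p ⊆ z := by
    rcases hu z (hZ hz) with h | h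
    · exact absurd h hpz
    · exact h
  have hzp : z ≠ p := by
    rintro rfl
    exact hpZ hz
  have h1 := hrem z (mem_insert_of_mem (hirrA (hZ hz))) hpz'
  have h2 : z \ p ∈ A := by
    rcases mem_insert.1 h1 with h0 | h0
    · exfalso
      rw [sdiff_eq_empty_iff_subset] at h0
      exact hzp (subset_antisymm h0 hpz')
    · exact h0
  have hz2 := hZ hz
  unfold irr at hz2
  rw [mem_filter] at hz2
  rcases hz2.2.2 (z \ p) h2 p (hirrA hpi) (sdiff_union_of_subset hpz') with h3 | h3
  · have : y ∈ z \ p := by rw [h3]; exact hpz' hy
    exact (mem_sdiff.1 this).2 hy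
  · exact hzp h3.symm

end Pool.Agent.Results.MP_75f39d_co.DisjointGenerators
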